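import Pool.Agent.helper75.S6D.Spec

/-!
# Project s6 (MP_2b41e9_nt), row CE1: the remainders
-/

set_option autoImplicit false

open Polynomial Finset

noncomputable section

namespace Pool.Agent.S6D

open Pool.Agent.PSA

/-- one step: if the next value is in `(0, 1)` and differs from `Λ r` by an integer then it is the fractional part -/
theorem CE1_step (y r : ℝ) (h0 : 0 < r) (h1 : r < 1) (z : ℤ) (hz : r - y = z) : y - (⌊y⌋ : ℝ) = r := by
  have h2 : ⌊y⌋ = -z := by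
    rw [Int.floor_eq_iff]
    push_cast
    constructor
    · linarith
    · linarith
  rw [h2]
  push_cast
  linarith

theorem CE1 : CE1_stmt := by
  intro Λ q1 q2 p1 p2 p3 st hΛ hp1 hp2 hp3 h0 hst
  have hΛ0 : 0 < Λ := by linarith
  have hΛi : 0 < Λ⁻¹ := inv_pos.mpr hΛ0
  have hΛΛ : Λ * Λ⁻¹ = 1 := mul_inv_cancel₀ hΛ0.ne'
  -- bounds
  have hs : ∀ n, 0 < ss q1 q2 st n ∧ ss q1 q2 st n ≤ 1 := by
    intro n
    cases n with
    | zero => exact ⟨by simp [ss], by simp [ss]⟩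
    | succ n => exact ⟨lt_trans hΛi (hst n).2.1, (hst n).2.2⟩
  have hr : ∀ n, 0 < ss q1 q2 st (n + 1) - Λ⁻¹ * ss q1 q2 st n ∧
      ss q1 q2 st (n + 1) - Λ⁻¹ * ss q1 q2 st n < 1 := by
    intro n
    have h1 := hs n
    have h2 := hst n
    have h3 : Λ⁻¹ * ss q1 q2 st n ≤ Λ⁻¹ := by nlinarith
    have h4 : 0 < Λ⁻¹ * ss q1 q2 st n := mul_pos hΛi h1.1
    constructor
    · linarith [h2.2.1]
    · linarith [h2.2.2]
  -- integrality
  have hint0 : ∃ z : ℤ, ss q1 q2 st 1 - (Λ + Λ⁻¹) * ss q1 q2 st 0 = z := by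
    refine ⟨(st 1).1 + p1, ?_⟩
    simp only [ss, sv, h0, ini]
    push_cast
    rw [hp1]
    ring
  have hint1 : ∃ z : ℤ, ss q1 q2 st 2 - (Λ + Λ⁻¹) * ss q1 q2 st 1 + ss q1 q2 st 0 = z := by
    refine ⟨(st 2).1 + p1 * (st 1).1 + p2, ?_⟩
    have e1 := (hst 0).1
    unfold Shift at e1
    simp only [zero_add, h0, ini] at e1
    simp only [ss, sv, h0, ini, e1]
    push_cast
    rw [hp1, hp2]
    ring
  have hint2 : ∀ n, ∃ z : ℤ, ss q1 q2 st (n + 3) - (Λ + Λ⁻¹) * ss q1 q2 st (n + 2) + ss q1 q2 st (n + 1) = z := by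
    intro n
    refine ⟨(st (n + 3)).1 + p1 * (st (n + 2)).1 + p2 * (st (n + 1)).1 + p3 * (st n).1 + p2 * (st n).2.1 +
      p1 * (st n).2.2.1 + (st n).2.2.2, ?_⟩
    have e1 := (hst n).1
    have e2 := (hst (n + 1)).1
    unfold Shift at e1 e2
    have e3 : (st (n + 1 + 1)).2 = ((st (n + 1)).1, (st n).1, (st n).2.1) := by rw [e2, e1]
    simp only [ss, sv]
    rw [show n + 2 = n + 1 + 1 from rfl, e3, e1]
    push_cast
    rw [hp1, hp2, hp3]
    ring
  have hint : ∀ n, ∃ z : ℤ, ss q1 q2 st (n + 2) - (Λ + Λ⁻¹) * ss q1 q2 st (n + 1) + ss q1 q2 st n = z := by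
    intro n
    cases n with
    | zero => exact hint1
    | succ n => exact hint2 n
  intro n
  induction n with
  | zero =>
    obtain ⟨z, hz⟩ := hint0
    have e1 : rmd Λ (0 + 1) = Λ * 1 - (⌊Λ * 1⌋ : ℝ) := rfl
    rw [e1]
    refine CE1_step _ _ (hr 0).1 (hr 0).2 z ?_
    rw [← hz]
    simp only [ss, zero_add]
    ring
  | succ n ih =>
    obtain ⟨z, hz⟩ := hint n
    have e1 : rmd Λ (n + 1 + 1) = Λ * rmd Λ (n + 1) - (⌊Λ * rmd Λ (n + 1)⌋ : ℝ) := rfl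
    rw [e1, ih]
    refine CE1_step _ _ (hr (n + 1)).1 (hr (n + 1)).2 z ?_
    rw [← hz]
    linear_combination (ss q1 q2 st n) * hΛΛ

end Pool.Agent.S6D
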